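import Mathlib
import Pool.Agent.N204.HJ.Stm

/-!
# HJ/J2: the tensor square of the semisimple part (helper615, for helper204)
-/

open TensorProduct Polynomial Module

namespace Pool.Agent.N615.HJ

theorem ss_right {K V W : Type} [Field K] [AddCommGroup V] [Module K V] [Module.Finite K V]
    [AddCommGroup W] [Module K W] {s : Module.End K V} (hs : s.IsSemisimple) :
    Module.End.IsSemisimple (LinearMap.rTensor W s : Module.End K (V ⊗[K] W)) := by
  refine Module.End.isSemisimple_of_squarefree_aeval_eq_zero hs.minpoly_squarefree ?_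
  have h1 : (LinearMap.rTensor W s : Module.End K (V ⊗[K] W)) = Module.End.rTensorAlgHom K V W s :=
    rfl
  rw [h1, aeval_algHom_apply, minpoly.aeval, map_zero]

theorem ss_left {K V W : Type} [Field K] [AddCommGroup V] [Module K V] [Module.Finite K V]
    [AddCommGroup W] [Module K W] {s : Module.End K V} (hs : s.IsSemisimple) :
    Module.End.IsSemisimple (LinearMap.lTensor W s : Module.End K (W ⊗[K] V)) := by
  refine Module.End.isSemisimple_of_squarefree_aeval_eq_zero hs.minpoly_squarefree ?_
  have h1 : (LinearMap.lTensor W s : Module.End K (W ⊗[K] V)) = Module.End.lTensorAlgHom K V W s :=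
    rfl
  rw [h1, aeval_algHom_apply, minpoly.aeval, map_zero]

theorem j2 : Pool.Agent.N204.HJ.S_J2 := by
  rintro K V _ _ _ _ _ f s ⟨h1, h2, h3⟩
  have hmul : ∀ a b c d : Module.End K V,
      (TensorProduct.map a b : Module.End K (V ⊗[K] V)) * TensorProduct.map c d =
        TensorProduct.map (a * c) (b * d) := fun a b c d => (TensorProduct.map_mul a c b d).symm
  have hcom : Commute (f - s) s := h3.sub_left (Commute.refl s)
  have hcomf : Commute (f - s) f := (Commute.refl f).sub_left h3.symm
  refine ⟨?_, ?_, ?_⟩
  · have h4 : (TensorProduct.map s s : Module.End K (V ⊗[K] V)) =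
        (LinearMap.rTensor V s : Module.End K (V ⊗[K] V)) * LinearMap.lTensor V s :=
      (LinearMap.rTensor_comp_lTensor V s s).symm
    rw [h4]
    refine Module.End.IsSemisimple.mul_of_commute ?_ (ss_right h1) (ss_left h1)
    change (LinearMap.rTensor V s).comp (LinearMap.lTensor V s) =
      (LinearMap.lTensor V s).comp (LinearMap.rTensor V s)
    rw [LinearMap.rTensor_comp_lTensor, LinearMap.lTensor_comp_rTensor]
  · have h4 : (TensorProduct.map f f : Module.End K (V ⊗[K] V)) - TensorProduct.map s s =
        TensorProduct.map (f - s) f + TensorProduct.map s (f - s) := by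
      ext x y
      simp [TensorProduct.sub_tmul, TensorProduct.tmul_sub]
    rw [h4]
    obtain ⟨k, hk⟩ := h2
    refine Commute.isNilpotent_add ?_ ⟨k, ?_⟩ ⟨k, ?_⟩
    · change (TensorProduct.map (f - s) f : Module.End K (V ⊗[K] V)) * TensorProduct.map s (f - s) =
        (TensorProduct.map s (f - s) : Module.End K (V ⊗[K] V)) * TensorProduct.map (f - s) f
      rw [hmul, hmul, hcom.eq, hcomf.eq]
    · rw [TensorProduct.map_pow, hk, TensorProduct.map_zero_left]
    · rw [TensorProduct.map_pow, hk, TensorProduct.map_zero_right]
  · change (TensorProduct.map f f : Module.End K (V ⊗[K] V)) * TensorProduct.map s s =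
      (TensorProduct.map s s : Module.End K (V ⊗[K] V)) * TensorProduct.map f f
    rw [hmul, hmul, h3.eq]

end Pool.Agent.N615.HJ
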