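import Mathlib
import Pool.Agent.N204.HJ.Stm

/-!
# HJ/J4: the radical of a monic polynomial with integral coefficients (helper615, for helper204)
-/

open Polynomial UniqueFactorizationMonoid

namespace Pool.Agent.N615.HJ

theorem j4 : Pool.Agent.N204.HJ.S_J4 := by
  intro Q hQ
  have hinj : Function.Injective (Int.castRingHom ℚ) := RingHom.injective_int _
  obtain ⟨F, hF⟩ : ∃ F : ℚ[X], F = Q.map (Int.castRingHom ℚ) := ⟨_, rfl⟩
  have hFm : F.Monic := hF ▸ hQ.map _
  have hr0 : radical F ≠ 0 := radical_ne_zero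
  obtain ⟨g, hg⟩ : ∃ g : ℚ[X], g = radical F * C (radical F).leadingCoeff⁻¹ := ⟨_, rfl⟩
  have hgm : g.Monic := hg ▸ monic_mul_leadingCoeff_inv hr0
  have hu : IsUnit (C (radical F).leadingCoeff⁻¹ : ℚ[X]) :=
    isUnit_C.2 (isUnit_iff_ne_zero.2 (inv_ne_zero (leadingCoeff_ne_zero.2 hr0)))
  have hass : Associated (radical F) g := by
    rw [hg]
    exact (associated_mul_unit_right _ _ hu)
  have hgF : g ∣ F := hass.dvd_iff_dvd_left.1 radical_dvd_self
  have hsq : Squarefree g := hass.squarefree_iff.1 squarefree_radical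
  obtain ⟨k, hk⟩ : ∃ n, F ∣ radical F ^ n := exists_dvd_radical_self_pow hFm.ne_zero
  have hk' : F ∣ g ^ k := hk.trans (hass.pow_pow).dvd
  -- integral coefficients
  have hgQ : g ∣ Q.map (algebraMap ℤ ℚ) := by
    rw [hF] at hgF
    exact hgF
  obtain ⟨R, hR⟩ := IsIntegrallyClosed.eq_map_mul_C_of_dvd (K := ℚ) hQ hgQ
  rw [hgm.leadingCoeff, C_1, mul_one] at hR
  have hR' : R.map (Int.castRingHom ℚ) = g := hR
  have hRm : R.Monic := by
    rw [hinj.monic_map_iff, hR']
    exact hgm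
  refine ⟨R, hRm, ?_, ?_, k, ?_⟩
  · rw [hR']
    exact hsq
  · rw [← Polynomial.map_dvd_map _ hinj hRm, hR', ← hF]
    exact hgF
  · rw [← Polynomial.map_dvd_map _ hinj hQ, Polynomial.map_pow, hR', ← hF]
    exact hk'

end Pool.Agent.N615.HJ
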